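import Pool.Agent.L7h29.AS.Main

/-!
# Q1 over `K` is equivalent to Q1 for the varieties defined over a dense subfield

The setting and the notions `Tilting`, `DimGE`, `DimLEOver`, `Approximable` are those of
`AllPerfectoidFields` (starting point): `K` is a perfectoid field of characteristic `0` with tilt `E = K♭`,
`C` is the completion of an algebraic closure of `K`, and `F = C♭`. `Approximable T K E X d` is the
conclusion of Q1 over `K` for a closed subset `X` of dimension `d` of projective space, given by its cone
over `C`: for all homogeneous polynomials `P_k` over `K` which vanish on `X` and all `ε > 0` there is a
closed subset `Y` of dimension `d` defined over `E` with `|P_k(y♯)| ≤ ε ‖y‖ ^ (deg P_k)` on `Y`.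

`DenseIn T K k`: `K` is closed in `C` (as `K` is complete), and `k` is a subfield of `K` which is dense in `K`
and algebraically closed in `K`. For example, if `K` is the completion of an algebraic extension of `ℚ_p`
(such as `ℚ_p(p^(1/p^∞))`, `ℚ_p(ζ_(p^∞))` or the algebraic closure, with the completion `ℂ_p`), let `k` be
the field of the elements of `K` which are algebraic over `ℚ`. It is dense by Krasner's lemma. In
general one may take for `k` the algebraic closure in `K` of any dense subfield.

`SmoothScheme C g`: the closed subscheme `X` of projective space which is defined by the forms `g` is
smooth. This is the Jacobian criterion: for each point `x` of `X` over `C` there are `c` of the forms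
and a form `h` with `h(x) ≠ 0` such that all `h g_l` are in the ideal generated by the `c` forms, so that `X` is
defined near `x` by these forms, and a minor of order `c` of their Jacobian matrix is not zero at `x`.
`zeros C g` is the cone over the set of the points of `X` over `C`.

**Theorem.**

1. Let `g_1, ..., g_r` be forms over `K` which define a smooth closed subscheme of dimension `d` of `ℙ^n`. For
   every `δ > 0` there are forms `g'_1, ..., g'_r` over `k` of the same degrees whose coefficients differ
   by at most `δ` from those of the `g_l`, and which define a smooth closed subscheme of dimension `d` over
   `k`.

2. Q1 over `K` is true for all smooth closed subschemes of dimension `d` of `ℙ^n` over `K` if and only if it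
   is true for those which are defined over `k`.

So Q1 over all completions `K` of algebraic extensions of `ℚ_p` (`ℂ_p` included) is equivalent to Q1 for the
smooth projective varieties which are defined over number fields. This makes available, for the proof
of Q1, what is known only for varieties over number fields: there are only countably many of them,
and for instance by Belyi's theorem all curves are coverings of the projective line which are ramified
over three points.

Proof. **Specialisation** (`exists_specialization`): for every tuple `s` of elements of `K` there are tuples
`s'` of elements of `k`, arbitrarily close to `s`, which satisfy all polynomial relations over `k` that `s`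
satisfies. This is proved by induction on the number of elements. If the next element `s_0` is
algebraic over `k(s)`, let `m(s, T)` be a polynomial of minimal degree with the root `s_0`; for `s'` close
to `s` the polynomial `m(s', T)` has a root in `C` close to `s_0`, Newton's method (`root_mem`) shows that it
lies in `K`, so it lies in `k`, and the relations are preserved by pseudo-division by `m`. Apply this
to the tuple `s` of the coefficients of the `g_l`, of finitely many charts (`h`, and the coefficients of
the `h g_l` in terms of the `c` forms), and of `d + 1` forms without common zeros on `X`. The new forms `g'_l`
satisfy the same identities; that the charts cover and that the `d + 1` forms have no common zero are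
open conditions (Nullstellensatz over `C`). The dimension does not drop (`dimGE_specialise`): otherwise
there are `d` linear forms over `k` without common zeros on the new `X'`; by Nakayama's lemma over the ring
generated by the coefficients (`no_zero_lift`) a multiple `ρ X_i ^ N` is in the ideal generated by the `g_l`
and these linear forms, where `ρ` is not zero under the specialisation, hence not zero, and the linear
forms have no common zero on `X`. Statement 2 follows, because Q1 is stable under limits
(`Pool.Agent.L7h29.AS.approximable_of_limit`, hand-in `Limits`).
-/

set_option autoImplicit false

namespace Pool.Agent.Results.MP_db3ab1_ag.DenseSubfields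

open MvPolynomial Pool.Agent.Y129.TA Pool.Agent.Y129.TB Pool.Agent.L7h29.AS

/-- **Smooth closed subschemes over `k` are dense in those over `K`, and Q1 over `K` holds for all
smooth closed subschemes if and only if it holds for those which are defined over `k`.** -/
theorem result {p : ℕ} [Fact p.Prime] {C F K E k : Type} [Field C] [Field F] [CharP F p] [Field K]
    [Field E] [Field k] [Algebra K C] [Algebra E F] [Algebra k K] [Algebra k C]
    [IsScalarTower k K C] [IsAlgClosed C] [IsAlgClosed F] (T : Tilting p C F)
    (H : DenseIn T.toTiltPair K k) (n d : ℕ) :
    (∀ {r : ℕ} (g : Fin r → MvPolynomial (Fin (n + 1)) K) (D : Fin r → ℕ),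
      (∀ l, 0 < D l ∧ (g l).IsHomogeneous (D l)) → SmoothScheme C g → DimGE (zeros C g) d →
      DimLEOver K (zeros C g) d → ∀ δ : ℝ, 0 < δ →
      ∃ g' : Fin r → MvPolynomial (Fin (n + 1)) k, (∀ l, (g' l).IsHomogeneous (D l)) ∧
        SmoothScheme C g' ∧ DimGE (zeros C g') d ∧ DimLEOver k (zeros C g') d ∧
        ∀ l μ, T.absK (algebraMap K C (algebraMap k K (coeff μ (g' l)) - coeff μ (g l))) ≤ δ) ∧
    (Q1Smooth T.toTiltPair K E K n d ↔ Q1Smooth T.toTiltPair K E k n d) :=
  ⟨fun g D hD hsm hge hle _ hδ => exists_approximation T.toTiltPair H g D (fun l => (hD l).1)
    (fun l => (hD l).2) hsm hge hle hδ, dense_main T.toTiltPair H n d⟩

end Pool.Agent.Results.MP_db3ab1_ag.DenseSubfields
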