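import Pool.Agent.L7h29.AS.Lim

/-!
# Q1 is stable under limits, and it is a closed condition in families

The setting and the notions `Tilting`, `BaseField`, `IsConeOver`, `DimGE`, `DimLEOver`, `Approximable` are
those of `AllPerfectoidFields` (starting point): `K` is a perfectoid field of characteristic `0` with tilt
`E = K♭`, `C` is the completion of an algebraic closure of `K`, and `F = C♭`. Closed subsets of
projective space are given by their cones, and `Approximable T K E X d` is Q1 over `K` for a closed subset
`X` of dimension `d` defined over `K`. `IsToricUnion K X d` (starting point): `X` has dimension at most `d` and is a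
finite union of images of complete intersections in toric varieties; for these Q1 is known.

Let `X` be a closed subset of dimension at most `d` of `ℙ^n`, defined over `K`.

**(1) Limits with multiplicities.** Let `g_1, ..., g_r` be forms over `K` whose common zeros lie in `X`.
Suppose that for every `δ > 0` there is a closed subset `X'` for which Q1 holds (in dimension `d`), numbers
`m_1, ..., m_r > 0`, and forms `G_l` of degree `m_l * deg(g_l)` which vanish on `X'`, such that the absolute values
of the coefficients of `G_l - g_l ^ m_l` are at most `δ ^ m_l`. Then the dimension of `X` is `d` and Q1 holds for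
`X`.

The multiplicities `m_l` may depend on `δ` and need not be bounded, and the `g_l` need not generate the
ideal of `X`. So `X` can be the support of a nonreduced limit of the `X'`, and more generally the degree of
the `X'` may tend to infinity; for instance, if the `X'` are defined by norms of `g_l - a` for small `a`.

**(2) Families.** Let `g_1, ..., g_r` be forms whose coefficients are polynomials over `K` in parameters
`t_1, ..., t_N`, and let `X_t` be the set of the common zeros for the parameter `t`. If the dimension of `X_t`
for `t = t₀` is at most `d`, and if there are `t` arbitrarily close to `t₀` such that Q1 holds for a closed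
subset of dimension `d` of `X_t`, then Q1 holds for `X_(t₀)`. So if Q1 holds for the general member of a
family (for `t` outside the zero set of some polynomial, for instance because the general member is a
complete intersection in a product of known varieties), it holds for all members of the same
dimension, whatever their equations look like: the special members of a family of complete
intersections in products, of degeneracy loci and so on need not be of this kind themselves.

The starting files and the other hand-ins prove that Q1 is stable under images, sections, unions, inverse
images, joins and descent of the base field. These are algebraic constructions over `K`; the stability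
under the passage to limits in the topology of `K` is new.

Proof. Let `P_k` vanish on `X` and `ε > 0`. By the Nullstellensatz over `C` there is a `δ` such that
`|P_k(v)| ≤ ε` for all `v` in the unit ball with `|g_l(v)| ≤ δ` for all `l`. Let `X'` and the `G_l` be as in
(1), and let `Y` be an approximation over `E` of `X'` for the `G_l` and `min (δ ^ m_l)`. For the points `y` of
`Y` in the unit ball `|g_l(y♯) ^ m_l| ≤ max (|G_l(y♯)|, δ ^ m_l) = δ ^ m_l`, so that `|P_k(y♯)| ≤ ε`.
-/

set_option autoImplicit false

namespace Pool.Agent.Results.MP_db3ab1_ag.Limits

open MvPolynomial Pool.Agent.Y129.TA Pool.Agent.Y129.TB Pool.Agent.R388.TP Pool.Agent.L7h29.AS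

/-- **Q1 is stable under limits (with multiplicities), and it is a closed condition in families.** -/
theorem result {p : ℕ} [Fact p.Prime] {C F K E : Type} [Field C] [Field F] [CharP F p] [Field K]
    [Field E] [Algebra K C] [Algebra E F] [IsAlgClosed C] [IsAlgClosed F] (T : Tilting p C F)
    (B : BaseField T K E) {n d : ℕ} :
    (∀ X : Set (Fin (n + 1) → C), IsConeOver K X → DimLEOver K X d →
      IsLimit T.toTiltPair K X (fun X' =>
        IsToricUnion K X' d ∨ Approximable T.toTiltPair K E X' d) →
      DimGE X d ∧ Approximable T.toTiltPair K E X d) ∧
    (∀ {r N : ℕ} (g : Fin r → MvPolynomial (Fin (n + 1)) (MvPolynomial (Fin N) K)) (D : Fin r → ℕ),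
      (∀ l, 0 < D l ∧ (g l).IsHomogeneous (D l)) → ∀ t₀ : Fin N → K,
      DimLEOver K {x : Fin (n + 1) → C | ∀ l, aeval x (member (g l) t₀) = 0} d →
      (∀ ε : ℝ, 0 < ε → ∃ (t : Fin N → K) (X' : Set (Fin (n + 1) → C)),
        (∀ i, T.absK (algebraMap K C (t i - t₀ i)) ≤ ε) ∧
        (IsToricUnion K X' d ∨ Approximable T.toTiltPair K E X' d) ∧
        ∀ l, ∀ x ∈ X', aeval x (member (g l) t) = 0) →
      DimGE {x : Fin (n + 1) → C | ∀ l, aeval x (member (g l) t₀) = 0} d ∧
      Approximable T.toTiltPair K E {x : Fin (n + 1) → C | ∀ l, aeval x (member (g l) t₀) = 0} d) :=
  ⟨fun _ hX _ h => limit_main T B hX h, fun g D hD t₀ _ h => family_main T B g D hD t₀ h⟩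

end Pool.Agent.Results.MP_db3ab1_ag.Limits
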