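import Pool.Agent.L7h80.MG.Main
import Pool.Agent.L7h80.MG.Exc
import Pool.Agent.L7h76.MG.Elim
import Pool.Agent.L7h47.MG.Mapp

/-!
# Q1 for images of multigraded complete intersections in products

The setting and the notions `Tilting`, `BaseField`, `IsConeOver`, `DimGE`, `DimLEOver`, `Approximable`,
`Q1` are those of the starting files on this problem: `K` is a perfectoid field of characteristic `0`
with tilt `E = K♭`, `C` is the completion of an algebraic closure of `K` and `F = C♭`. Closed subsets of
projective spaces are given by their cones.

`Q1 T K E X d` (`Pool/Agent/N150/JN/Main.lean`): `X` is a closed subset of `ℙ^n` defined over `K`, of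
dimension `d` (any `d` forms have a common zero on it, and some `d + 1` forms over `K` have none), and
Q1 holds for it: for all homogeneous polynomials `P_k` over `K` which vanish on `X` and all `ε > 0` there
is a closed subset `Y` of dimension `d` of `ℙ^n`, defined over `E = K♭`, with
`|P_k (y♯)| ≤ ε ‖y‖ ^ (deg P_k)` for all `k` and all points `y` of `Y` over `F`.

The coordinates of `ℙ^(m 0) × ... × ℙ^(m (r - 1))` are indexed by `Sig m`, the pairs `(κ, i)` with
`i ≤ m κ`; a vector of coordinates gives a point of the product if no group of coordinates vanishes
(`Rel`), and `MH g a` says that `g` is multihomogeneous of multidegree `a`.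

Theorem (`result`). Suppose that Q1 holds for `X_κ ⊂ ℙ^(m κ)`, of dimension `d κ`, `κ < r`. Let
`g_1, …, g_c` be multihomogeneous polynomials over `K` of arbitrary multidegrees `a_1, …, a_c`, let
`f_0, …, f_n` be multihomogeneous polynomials over `K` of the same multidegree `D` without common zeros on
`W = {x in ∏ X_κ : g_j (x) = 0}`, and let `X` be the image of `W` in `ℙ^n`. Suppose that

* `e + c` factors can be chosen, one for each `g_j` and `e` for `D`, such that the chosen component of the
  multidegree is positive and the factor `κ` is chosen at most `d κ` times (this says that the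
  intersection number of the `a_j`, of `e` copies of `D` and of some hyperplane classes is not zero);
* `X` has dimension at most `e`.

Then Q1 holds for `X`, and `X` has dimension `e`.

For the factors `X_κ = ℙ^(m κ)` and `C = K = ℂ_p` this is `ImagesOfCompleteIntersections` (starting
point). For several factors, or for one factor for which Q1 is known, over a general perfectoid field,
the equations could so far only be sections of powers of one ample line bundle (`Products` and
`ToricSectionsAndStability`, starting point). Multigraded equations give, for varieties for which Q1 is
known, the fibre products over `ℙ^1` (the equation `s (x) v (y) = t (x) u (y)`), the pencils (blow ups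
of the intersection of two members), incidence varieties, and the images of all these. The theorem
can be iterated.

Proof. Let `Z` be the image of `W` under the map given by all monomials of multidegree `D`. It is closed
and defined over `K` (`S_ELIM`, elimination over a field which need not be algebraically closed). The
`X_κ` are approximated by `Y_κ`, and the `g_j` by multihomogeneous polynomials `h_j` over `E` of
multidegrees `p ^ M a_j` (`S_MAPP`, with Witt vectors; the zeros of `h_j` are mapped to approximate zeros
of `g_j`). The image of the set of the common zeros of the `h_j` in `∏ Y_κ` is an approximation of `Z`,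
by the Nullstellensatz over `C` in the multihomogeneous coordinates (`approximable_SV`). The lower bound
for the dimension is `S_EXC`: multihomogeneous forms with the numerical condition have a common zero on
the product of the `Y_κ`, by exchange of linear forms by forms of higher degree. The upper bound comes
from `e + 1` forms without common zeros on `Z` and their approximations. Finally `X` is the image of `Z`
under linear forms, and Q1 is stable under such images.

With: helper76 (`S_ELIM`), helper47 (`S_MAPP`), helper80.
-/

set_option autoImplicit false

namespace Pool.Agent.Results.MP_db3ab1_ag.MultigradedCompleteIntersections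

open MvPolynomial Pool.Agent.Y129.TA Pool.Agent.Y129.TB Pool.Agent.N150.JN Pool.Agent.L7h80.MG
open Pool.Agent.W476.TP (Sig MH Rel)

/-- **Q1 for images of multigraded complete intersections in products.** -/
theorem result {p : ℕ} [Fact p.Prime] {C F K E : Type} [Field C] [Field F] [CharP F p] [Field K]
    [Field E] [Algebra K C] [Algebra E F] [IsAlgClosed C] [IsAlgClosed F] (T : Tilting p C F)
    (B : BaseField T K E)
    -- the factors
    {r : ℕ} {m d : Fin r → ℕ} {X : ∀ κ, Set (Fin (m κ + 1) → C)}
    (hX : ∀ κ, Q1 T K E (X κ) (d κ))
    -- the equations
    {c : ℕ} (g : Fin c → MvPolynomial (Sig m) K) (a : Fin c → Fin r → ℕ)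
    (hg : ∀ j, MH (g j) (a j))
    -- the map
    {n : ℕ} (f : Fin (n + 1) → MvPolynomial (Sig m) K) (D : Fin r → ℕ) (hf : ∀ i, MH (f i) D)
    (hf0 : ∀ y : Sig m → C, Rel y → (∀ κ, (fun i => y ⟨κ, i⟩) ∈ X κ) → (∀ j, aeval y (g j) = 0) →
      ∃ i, aeval y (f i) ≠ 0)
    -- the numerical condition
    {e : ℕ} (τ : Fin c ⊕ Fin e → Fin r) (ha : ∀ j, 0 < a j (τ (Sum.inl j)))
    (hD : ∀ j, 0 < D (τ (Sum.inr j))) (hτ : ∀ κ, Nat.card {j // τ j = κ} ≤ d κ)
    -- the dimension of the image
    (hle : DimLEOver K (mgImage X g f) e) : Q1 T K E (mgImage X g f) e :=
  main Pool.Agent.L7h76.MG.s_ELIM s_EXC Pool.Agent.L7h47.MG.s_MAPP T B hX g a hg f hf hf0 τ ha hD hτ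
    hle

end Pool.Agent.Results.MP_db3ab1_ag.MultigradedCompleteIntersections
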